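import Pool.Agent.helper23.CS.Spec

/-!
# Project cs: MKV (the Markov property)
-/

open Finset

namespace CS

section
variable {V ι : Type} [Fintype V] [DecidableEq V] [DecidableEq ι]

/-- edges of `E` with both ends outside `S` -/
def MKV_T (G : MG V ι) (E : Finset ι) (S : Finset V) : Finset ι :=
  E.filter fun e => G.s e ∉ S ∧ G.t e ∉ S

/-- the factor of the outside -/
noncomputable def MKV_K (G : MG V ι) (p q : ℝ) (E : Finset ι) (S : Finset V) (z : V) : ℝ :=
  (∑ ω ∈ (MKV_T G E S).powerset, p ^ ω.card * q ^ (MKV_T G E S \ ω).card *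
    (ind (∀ v, v ∉ S → Conn G ω v z) * KN G ω)) *
    q ^ (E.card - (ins G E S).card - (MKV_T G E S).card) / (Fintype.card (V → Bool) : ℝ)

theorem MKV_A (hMKF : MKF_stmt) (hMKC : MKC_stmt) (G : MG V ι) (p q : ℝ) (E : Finset ι)
    (S : Finset V) {z : V} (hz : z ∉ S) (f : (V → Bool) → ℝ)
    (hf : ∀ σ τ : V → Bool, (∀ x ∈ S, σ x = τ x) → f σ = f τ) :
    ∑ ω ∈ E.powerset, p ^ ω.card * q ^ (E \ ω).card * (ind (Cz G ω z = S) * KK G ω f) =
      MKV_K G p q E S z * ∑ ω ∈ (ins G E S).powerset, p ^ ω.card * q ^ (ins G E S \ ω).card *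
        KK G ω f := by
  classical
  have e1 : ∑ ω ∈ E.powerset, p ^ ω.card * q ^ (E \ ω).card * (ind (Cz G ω z = S) * KK G ω f) =
      ∑ ω ∈ E.powerset.filter (fun ω => Cz G ω z = S), p ^ ω.card * q ^ (E \ ω).card *
        KK G ω f := by
    rw [Finset.sum_filter]
    refine Finset.sum_congr rfl fun ω _ => ?_
    by_cases h : Cz G ω z = S
    · rw [if_pos h, ind_true h, one_mul]
    · rw [if_neg h, ind_false h, zero_mul, mul_zero]
  have e2 : ∑ ω ∈ (MKV_T G E S).powerset, p ^ ω.card * q ^ (MKV_T G E S \ ω).card *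
      (ind (∀ v, v ∉ S → Conn G ω v z) * KN G ω) =
      ∑ ω ∈ (MKV_T G E S).powerset.filter (fun ω => ∀ v, v ∉ S → Conn G ω v z),
        p ^ ω.card * q ^ (MKV_T G E S \ ω).card * KN G ω := by
    rw [Finset.sum_filter]
    refine Finset.sum_congr rfl fun ω _ => ?_
    by_cases h : ∀ v, v ∉ S → Conn G ω v z
    · rw [if_pos h, ind_true h, one_mul]
    · rw [if_neg h, ind_false h, zero_mul, mul_zero]
  have hN : (0 : ℝ) < (Fintype.card (V → Bool) : ℝ) := by exact_mod_cast Fintype.card_pos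
  have hIT : Disjoint (ins G E S) (MKV_T G E S) := by
    rw [Finset.disjoint_left]
    intro e he he'
    exact (mem_filter.1 he').2.1 (mem_filter.1 he).2.1
  have hcard : (ins G E S).card + (MKV_T G E S).card ≤ E.card := by
    rw [← Finset.card_union_of_disjoint hIT]
    exact Finset.card_le_card (Finset.union_subset (Finset.filter_subset _ _)
      (Finset.filter_subset _ _))
  rw [e1]
  unfold MKV_K
  rw [e2]
  have e3 : (∑ ω ∈ (MKV_T G E S).powerset.filter (fun ω => ∀ v, v ∉ S → Conn G ω v z),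
        p ^ ω.card * q ^ (MKV_T G E S \ ω).card * KN G ω) *
      q ^ (E.card - (ins G E S).card - (MKV_T G E S).card) / (Fintype.card (V → Bool) : ℝ) *
      ∑ ω ∈ (ins G E S).powerset, p ^ ω.card * q ^ (ins G E S \ ω).card * KK G ω f =
      ∑ x ∈ (ins G E S).powerset ×ˢ
        (MKV_T G E S).powerset.filter (fun ω => ∀ v, v ∉ S → Conn G ω v z),
        (p ^ x.1.card * q ^ (ins G E S \ x.1).card * KK G x.1 f) *
          (p ^ x.2.card * q ^ (MKV_T G E S \ x.2).card * KN G x.2) *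
          (q ^ (E.card - (ins G E S).card - (MKV_T G E S).card) /
            (Fintype.card (V → Bool) : ℝ)) := by
    rw [← Finset.sum_mul, Finset.sum_product]
    dsimp only
    rw [← Finset.sum_mul_sum]
    ring
  rw [e3]
  have hin : ∀ ω₁ ω₂ : Finset ι, ω₁ ⊆ ins G E S → ω₂ ⊆ MKV_T G E S →
      (ω₁ ∪ ω₂).filter (fun e => G.s e ∈ S ∧ G.t e ∈ S) = ω₁ ∧
      (ω₁ ∪ ω₂).filter (fun e => G.s e ∉ S ∧ G.t e ∉ S) = ω₂ := by
    intro ω₁ ω₂ h1 h2
    constructor
    · ext e
      rw [mem_filter, mem_union]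
      constructor
      · rintro ⟨h | h, h3⟩
        · exact h
        · exact absurd h3.1 (mem_filter.1 (h2 h)).2.1
      · intro h
        exact ⟨Or.inl h, (mem_filter.1 (h1 h)).2⟩
    · ext e
      rw [mem_filter, mem_union]
      constructor
      · rintro ⟨h | h, h3⟩
        · exact absurd (mem_filter.1 (h1 h)).2.1 h3.1
        · exact h
      · intro h
        exact ⟨Or.inr h, (mem_filter.1 (h2 h)).2⟩
  have hout : ∀ ω ∈ E.powerset.filter (fun ω => Cz G ω z = S),
      ω.filter (fun e => G.s e ∈ S ∧ G.t e ∈ S) ∪ ω.filter (fun e => G.s e ∉ S ∧ G.t e ∉ S) = ω := by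
    intro ω hω
    rw [mem_filter, mem_powerset] at hω
    have h1 := ((hMKC V ι G E ω S z hω.1 hz).1 hω.2).1
    ext e
    rw [mem_union, mem_filter, mem_filter]
    constructor
    · rintro (h | h)
      · exact h.1
      · exact h.1
    · intro h
      rcases h1 e h with h2 | h2
      · exact Or.inl ⟨h, h2⟩
      · exact Or.inr ⟨h, h2⟩
  refine Finset.sum_nbij' (fun ω => (ω.filter (fun e => G.s e ∈ S ∧ G.t e ∈ S),
    ω.filter (fun e => G.s e ∉ S ∧ G.t e ∉ S))) (fun x => x.1 ∪ x.2) ?_ ?_ ?_ ?_ ?_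
  · intro ω hω
    have hω' := hω
    rw [mem_filter, mem_powerset] at hω
    have h1 := ((hMKC V ι G E ω S z hω.1 hz).1 hω.2).2
    rw [mem_product, mem_filter, mem_powerset, mem_powerset]
    exact ⟨Finset.filter_subset_filter _ hω.1, Finset.filter_subset_filter _ hω.1, h1⟩
  · rintro ⟨ω₁, ω₂⟩ hx
    rw [mem_product, mem_filter, mem_powerset, mem_powerset] at hx
    obtain ⟨h1, h2, h3⟩ := hx
    have h4 : ω₁ ∪ ω₂ ⊆ E := Finset.union_subset (h1.trans (Finset.filter_subset _ _))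
      (h2.trans (Finset.filter_subset _ _))
    rw [mem_filter, mem_powerset]
    refine ⟨h4, (hMKC V ι G E (ω₁ ∪ ω₂) S z h4 hz).2 ⟨?_, ?_⟩⟩
    · intro e he
      rcases mem_union.1 he with h | h
      · exact Or.inl (mem_filter.1 (h1 h)).2
      · exact Or.inr (mem_filter.1 (h2 h)).2
    · rw [(hin ω₁ ω₂ h1 h2).2]
      exact h3
  · intro ω hω
    exact hout ω hω
  · rintro ⟨ω₁, ω₂⟩ hx
    rw [mem_product, mem_filter, mem_powerset, mem_powerset] at hx
    obtain ⟨h1, h2, h3⟩ := hx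
    exact Prod.ext (hin ω₁ ω₂ h1 h2).1 (hin ω₁ ω₂ h1 h2).2
  · intro ω hω
    have h0 := hout ω hω
    rw [mem_filter, mem_powerset] at hω
    show p ^ ω.card * q ^ (E \ ω).card * KK G ω f =
      (p ^ (ω.filter (fun e => G.s e ∈ S ∧ G.t e ∈ S)).card *
        q ^ (ins G E S \ ω.filter (fun e => G.s e ∈ S ∧ G.t e ∈ S)).card *
        KK G (ω.filter (fun e => G.s e ∈ S ∧ G.t e ∈ S)) f) *
      (p ^ (ω.filter (fun e => G.s e ∉ S ∧ G.t e ∉ S)).card *
        q ^ (MKV_T G E S \ ω.filter (fun e => G.s e ∉ S ∧ G.t e ∉ S)).card *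
        KN G (ω.filter (fun e => G.s e ∉ S ∧ G.t e ∉ S))) * _
    have h1 : ω.filter (fun e => G.s e ∈ S ∧ G.t e ∈ S) ⊆ ins G E S :=
      Finset.filter_subset_filter _ hω.1
    have h2 : ω.filter (fun e => G.s e ∉ S ∧ G.t e ∉ S) ⊆ MKV_T G E S :=
      Finset.filter_subset_filter _ hω.1
    generalize ω.filter (fun e => G.s e ∈ S ∧ G.t e ∈ S) = ω₁ at h0 h1 ⊢
    generalize ω.filter (fun e => G.s e ∉ S ∧ G.t e ∉ S) = ω₂ at h0 h2 ⊢
    have h3 := hMKF V ι G ω₁ ω₂ S f (fun e he => (mem_filter.1 (h1 he)).2)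
      (fun e he => (mem_filter.1 (h2 he)).2) hf
    rw [h0] at h3
    have h4 : KK G ω f = KK G ω₁ f * KN G ω₂ / (Fintype.card (V → Bool) : ℝ) := by
      rw [← h3]
      field_simp
    have hd : Disjoint ω₁ ω₂ := Finset.disjoint_of_subset_left h1 (Finset.disjoint_of_subset_right h2 hIT)
    have c1 : ω.card = ω₁.card + ω₂.card := by
      rw [← h0, Finset.card_union_of_disjoint hd]
    have c2 : (E \ ω).card = (ins G E S \ ω₁).card + (MKV_T G E S \ ω₂).card +
        (E.card - (ins G E S).card - (MKV_T G E S).card) := by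
      have d1 := Finset.card_sdiff_add_card_eq_card hω.1
      have d2 := Finset.card_sdiff_add_card_eq_card h1
      have d3 := Finset.card_sdiff_add_card_eq_card h2
      omega
    rw [h4, c1, c2, pow_add, pow_add, pow_add]
    ring

end

set_option linter.unusedVariables false in
theorem MKV (hMKF : MKF_stmt) (hMKC : MKC_stmt) (hREX : REX_stmt) (hRCO : RCO_stmt) :
    MKV_stmt := by
  intro V ι _ _ _ G b E S a x z hb ha hx hz
  have h1 : FS G b E (fun ω => ind (Cz G ω z = S) * ind (Conn G ω a x)) =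
      ∑ ω ∈ E.powerset, (1 - Real.exp (-2 * b)) ^ ω.card * Real.exp (-2 * b) ^ (E \ ω).card *
        (ind (Cz G ω z = S) * KK G ω fun σ => CU.sg (σ a) * CU.sg (σ x)) := by
    unfold FS wf
    refine Finset.sum_congr rfl fun ω _ => ?_
    rw [KK_two]
    ring
  have h2 : FS G b E (fun ω => ind (Cz G ω z = S)) =
      ∑ ω ∈ E.powerset, (1 - Real.exp (-2 * b)) ^ ω.card * Real.exp (-2 * b) ^ (E \ ω).card *
        (ind (Cz G ω z = S) * KK G ω fun _ => 1) := by
    unfold FS wf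
    refine Finset.sum_congr rfl fun ω _ => ?_
    show _ * KN G ω * _ = _ * (_ * KN G ω)
    ring
  rw [h1, h2, MKV_A hMKF hMKC G _ _ E S hz _ (fun σ τ h => by rw [h a ha, h x hx]),
    MKV_A hMKF hMKC G _ _ E S hz _ (fun _ _ _ => rfl)]
  have h3 := hREX V ι G b (ins G E S) (fun σ => CU.sg (σ a) * CU.sg (σ x))
  have h4 := hREX V ι G b (ins G E S) (fun _ => 1)
  have h5 : Zf G b (ins G E S) (fun σ => CU.sg (σ a) * CU.sg (σ x)) =
      cor G b (ins G E S) a x * Zf G b (ins G E S) (fun _ => 1) := by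
    unfold cor mf
    rw [div_mul_cancel₀ _ (Zf_pos G b (ins G E S)).ne']
  rw [h3, h4] at h5
  have hexp := (Real.exp_pos (b * (ins G E S).card)).ne'
  have h6 : Real.exp (b * (ins G E S).card) *
      (∑ ω ∈ (ins G E S).powerset, (1 - Real.exp (-2 * b)) ^ ω.card *
        Real.exp (-2 * b) ^ (ins G E S \ ω).card * KK G ω fun σ => CU.sg (σ a) * CU.sg (σ x)) =
      Real.exp (b * (ins G E S).card) *
      (cor G b (ins G E S) a x * ∑ ω ∈ (ins G E S).powerset, (1 - Real.exp (-2 * b)) ^ ω.card *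
        Real.exp (-2 * b) ^ (ins G E S \ ω).card * KK G ω fun _ => 1) := by
    rw [h5]
    ring
  rw [mul_left_cancel₀ hexp h6]
  ring

end CS
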