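import Pool.Agent.helper23.CS.Spec

/-!
# Project cs: RFKG (FKG inequality for the random cluster weights)
-/

open Finset

namespace CS

theorem RFKG_wf_nonneg {V ι : Type} [Fintype V] [DecidableEq V] [DecidableEq ι] (G : MG V ι)
    {b : ℝ} (hb : 0 ≤ b) (E ω : Finset ι) : 0 ≤ wf G b E ω := by
  have h1 : Real.exp (-2 * b) ≤ 1 := by
    rw [Real.exp_le_one_iff]
    linarith
  have h2 : 0 ≤ 1 - Real.exp (-2 * b) := by linarith
  unfold wf
  exact mul_nonneg (mul_nonneg (pow_nonneg h2 _) (pow_nonneg (Real.exp_pos _).le _)) (KN_pos G ω).le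

theorem RFKG_lat (hKSUP : KSUP_stmt) {V ι : Type} [Fintype V] [DecidableEq V] [DecidableEq ι]
    (G : MG V ι) {b : ℝ} (hb : 0 ≤ b) (E ω ω' : Finset ι) :
    wf G b E ω * wf G b E ω' ≤ wf G b E (ω ∩ ω') * wf G b E (ω ∪ ω') := by
  have h1 : Real.exp (-2 * b) ≤ 1 := by
    rw [Real.exp_le_one_iff]
    linarith
  have h2 : 0 ≤ 1 - Real.exp (-2 * b) := by linarith
  have h3 : (ω ∩ ω').card + (ω ∪ ω').card = ω.card + ω'.card :=
    Finset.card_inter_add_card_union ω ω'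
  have h4 : (E \ (ω ∩ ω')).card + (E \ (ω ∪ ω')).card = (E \ ω).card + (E \ ω').card := by
    have e1 : E \ (ω ∩ ω') = (E \ ω) ∪ (E \ ω') := by
      ext x
      simp only [mem_sdiff, mem_inter, mem_union]
      tauto
    have e2 : E \ (ω ∪ ω') = (E \ ω) ∩ (E \ ω') := by
      ext x
      simp only [mem_sdiff, mem_inter, mem_union]
      tauto
    rw [e1, e2, Finset.card_union_add_card_inter]
  have h5 := hKSUP V ι G ω ω'
  unfold wf
  have e1 : (1 - Real.exp (-2 * b)) ^ ω.card * Real.exp (-2 * b) ^ (E \ ω).card * KN G ω *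
      ((1 - Real.exp (-2 * b)) ^ ω'.card * Real.exp (-2 * b) ^ (E \ ω').card * KN G ω') =
      (1 - Real.exp (-2 * b)) ^ (ω.card + ω'.card) *
        Real.exp (-2 * b) ^ ((E \ ω).card + (E \ ω').card) * (KN G ω * KN G ω') := by
    rw [pow_add, pow_add]
    ring
  have e2 : (1 - Real.exp (-2 * b)) ^ (ω ∩ ω').card * Real.exp (-2 * b) ^ (E \ (ω ∩ ω')).card *
        KN G (ω ∩ ω') *
      ((1 - Real.exp (-2 * b)) ^ (ω ∪ ω').card * Real.exp (-2 * b) ^ (E \ (ω ∪ ω')).card *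
        KN G (ω ∪ ω')) =
      (1 - Real.exp (-2 * b)) ^ ((ω ∩ ω').card + (ω ∪ ω').card) *
        Real.exp (-2 * b) ^ ((E \ (ω ∩ ω')).card + (E \ (ω ∪ ω')).card) *
        (KN G (ω ∩ ω') * KN G (ω ∪ ω')) := by
    rw [pow_add, pow_add]
    ring
  rw [e1, e2, h3, h4]
  exact mul_le_mul_of_nonneg_left h5
    (mul_nonneg (pow_nonneg h2 _) (pow_nonneg (Real.exp_pos _).le _))

theorem RFKG (hKSUP : KSUP_stmt) : RFKG_stmt := by
  intro V ι _ _ _ _ G b E hb F H hF hH hF0 hH0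
  let μ : Finset ι → ℝ := fun ω => if ω ⊆ E then wf G b E ω else 0
  have hμ0 : ∀ ω, 0 ≤ μ ω := by
    intro ω
    show 0 ≤ (if ω ⊆ E then wf G b E ω else 0)
    split_ifs
    · exact RFKG_wf_nonneg G hb E ω
    · exact le_rfl
  have hFS : ∀ K : Finset ι → ℝ, FS G b E K = ∑ ω, μ ω * K ω := by
    intro K
    have h1 : ∑ ω ∈ E.powerset, wf G b E ω * K ω = ∑ ω ∈ E.powerset, μ ω * K ω := by
      refine Finset.sum_congr rfl fun ω hω => ?_
      show _ = (if ω ⊆ E then wf G b E ω else 0) * K ω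
      rw [if_pos (Finset.mem_powerset.1 hω)]
    show ∑ ω ∈ E.powerset, wf G b E ω * K ω = _
    rw [h1]
    refine Finset.sum_subset (Finset.subset_univ _) fun ω _ hω => ?_
    show (if ω ⊆ E then wf G b E ω else 0) * K ω = 0
    rw [if_neg fun h => hω (Finset.mem_powerset.2 h), zero_mul]
  have hlat : ∀ ω ω', μ ω * μ ω' ≤ μ (ω ⊓ ω') * μ (ω ⊔ ω') := by
    intro ω ω'
    by_cases h : ω ⊆ E
    · by_cases h' : ω' ⊆ E
      · show (if ω ⊆ E then wf G b E ω else 0) * (if ω' ⊆ E then wf G b E ω' else 0) ≤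
          (if ω ∩ ω' ⊆ E then wf G b E (ω ∩ ω') else 0) *
            (if ω ∪ ω' ⊆ E then wf G b E (ω ∪ ω') else 0)
        rw [if_pos h, if_pos h', if_pos (Finset.inter_subset_left.trans h),
          if_pos (Finset.union_subset h h')]
        exact RFKG_lat hKSUP G hb E ω ω'
      · have h1 : μ ω' = 0 := if_neg h'
        rw [h1, mul_zero]
        exact mul_nonneg (hμ0 _) (hμ0 _)
    · have h1 : μ ω = 0 := if_neg h
      rw [h1, zero_mul]
      exact mul_nonneg (hμ0 _) (hμ0 _)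
  have key := fkg (μ := μ) (f := F) (g := H) hμ0 hF0 hH0 hF hH hlat
  rw [hFS F, hFS H, hFS (fun _ => 1), hFS (fun ω => F ω * H ω)]
  simpa using key

end CS
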